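import Pool.Agent.H897.XG

/-!
MP_be00df_ag, Q1 (for projective manifolds): nef parabolic line bundles on hyperkähler manifolds and
the self-dual slope filtration of the tangent bundle by foliations.

**The variety.** `NormalModel y` (`Pool/Agent/Y172/Defs.lean`): `y` is the generic point, in
homogeneous coordinates, of a normal projective variety `X` with function field `K`, `n = dim X`.
The prime divisors are the `P` with `IsPrimeDivisor y P`. Divisors are given by their
multiplicities. A distribution is a `K`-subspace `G` of the space of the rational vector fields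
`Derivation ℂ K K`, the generic fibre of a saturated subsheaf of the tangent sheaf `T_X`. A
foliation is a distribution which is closed under the Lie bracket.

**Degrees** (`Pool/Agent/H897/RG.lean`, `VE.lean`, `JI.lean`). `MovableClass y α`: `α` is a linear
function on the divisors which is nonnegative on the prime divisors and `0` on principal divisors.
`HasDeg y α e s`: the divisor `∑ e P • P` has the degree `s`. `LogDegree y n (fun _ => 0) α c`:
`K_X . α = c`. `WedgeOrd n 0 P D e`: `e` is the order along `P` of `D 0 ∧ ⋯ ∧ D (r - 1)` as a
rational section of the exterior power of `T_X`. `SubDeg y n (fun _ => 0) α G d`: the degree of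
(the determinant of) `G` is `d`; we write `G . α = d`. `SemistableTangent y n (fun _ => 0) α 0`:
`T_X` is `α`-semistable of degree `0`.

**The filtration** (`XG.lean`). `SlopeMin y n α β t G`: `G . α = 0`, and `G . β - t rk G` is minimal
among the distributions `G` with `G . α = 0`.

**Forms and tensors** (`WD.lean`, `JJ.lean`). `FormAt n 0 P σ`: the bilinear form `σ` on the rational
vector fields is regular along `P`; with `halt` and `hnd`, `σ` is a holomorphic (reflexive) `2`-form
which is nondegenerate at the generic point. `σ.orthogonal G` is the `σ`-orthogonal complement.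
`TensorAt n 0 (M P) P T`: the multilinear form `T` on the `m`-th power of the space of the rational
vector fields is regular along `P` with values in `M`. For `X` smooth the `T` with this property for
all prime divisors `P` are the sections of `(Ω_X) ^ ⊗ m ⊗ O (M)`.

**Theorem.** Let `α` and `β` be movable classes, `K_X . α = 0`, `T_X` `α`-semistable, and `P . β = 0`
for all prime divisors `P` with `P . α = 0`. Then for every real number `t` there are a smallest
distribution `E t` and a largest distribution `F t` among the `G` which minimise `G . β - t rk G`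
under the condition `G . α = 0`. Moreover:
* `F s ⊂ E t` for `s < t`; for large `t` we have `F (- t) = 0` and `E t = T_X`: so the `E t` and
  `F t` are the steps of one finite filtration;
* it is self-dual, `(E t)^⊥ = F (- t)` and `(F t)^⊥ = E (- t)`;
* `E t` and `F t` are foliations for `t ≤ 0`;
* a section `T` of the `m`-th tensor power of the cotangent sheaf, `m ≥ 1`, with values in a
  `ℚ`-divisor `M`, `M . α = 0`, vanishes on `F (t 1) × ⋯ × F (t m)` if `∑ t j < M . β`, and if
  `∑ t j ≤ M . β` it vanishes on the tuples in this product with one component in `E (t j)`;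
* if `T_X` is `β`-stable in the sense that `G . β < 0` for all distributions `G ≠ 0, T_X`, then
  `E 0 ≠ 0`, or `T_X` is `α`-stable: only `G = 0, T_X` have `G . α = 0`.

**The problem.** Let `X` be a projective hyperkähler manifold of dimension `n = 2 p`, `H` ample, `L`
nef and not trivial with `q (L, L) = 0`. Then `L ^ (p + 1) = 0`, and `α = L ^ p . H ^ (p - 1)`, up to
a factor `q (L, ·)`, is the limit of the classes `(H + t L) ^ (n - 1)`, up to factors, for which `T_X`
is stable; so it is `α`-semistable. Suppose `κ (X, L) = - ∞`. The prime divisors `P i` with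
`P i . α = 0` have negative squares (otherwise `P i` is a multiple of `L`), they are
finitely many, and there is `H' = H + ∑ c i P i`, `c i ≥ 0`, with `q (H', P i) = 0`. Then
`β = q (H', ·)` is a movable class with `L . β > 0`, and the theorem applies, with `M = a L`; if no
prime divisor is orthogonal to `L` then `β = q (H, ·)`, and `T_X` is `β`-stable. (These facts
are known and not part of the Lean theorem.) So the tangent bundle of a counterexample has a
canonical self-dual filtration, the steps `E t`, `F t` with `t ≤ 0` are foliations, and the sections of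
`(Ω_X) ^ ⊗ m ⊗ a L` vanish on the products of the steps with slopes of sum less than `a (L . β)`.
If `T_X` is `α`-stable the filtration has only one step, and there are no sections for `a > 0`; if not,
and no prime divisor is orthogonal to `L`, then `E 0` is a foliation, not `0`, isotropic, since its
orthogonal complement is `F 0 ⊃ E 0`, and of negative degree.

**Proof.** The distributions of `α`-degree `0` form a lattice, since `T_X` is semistable, and
`G . β` is a modular function on it, because the differences in the inequalities for the
determinants are effective divisors of `α`-degree `0`, hence of `β`-degree `0`; it has finitely many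
values by the Jordan–Hölder filtration. For the same reason `G . β = G^⊥ . β`. So the minimising
distributions form a sublattice. All quotients of filtrations with increasing slopes of `E t` and `F t`
have slopes `< t` and `≤ t`, and a tensor with values in `M` on a product of distributions with slopes
`≤ c 1, …, ≤ c m` vanishes if `∑ c s < M . β` (Kempf's optimal flag of the tensor, normalised by
the determinants of the blocks). For the brackets this is applied to the forms `σ (⁅D, D'⁆, D'')` on
`E t × E t × F (- t)` and on `F t × F t × E (- t)`.
-/

set_option autoImplicit false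

open FF Pool.Agent.W602.GT Pool.Agent.Y172 Pool.Agent.NH31 Pool.Agent.H897

namespace Pool.Agent.Results.MP_be00df_ag.SlopeFiltration

/-- **The self-dual slope filtration.** -/
theorem result {K : Type} [Field K] [Algebra ℂ K] {N n : ℕ} {y : Fin (N + 1) → K}
    (hy : NormalModel y) (hn : Algebra.trdeg ℂ K = n) (hn1 : 1 ≤ n)
    {α β : Place ℂ K → ℝ} (hα : MovableClass y α) (hc : LogDegree y n (fun _ => 0) α 0)
    (hss : SemistableTangent y n (fun _ => 0) α 0) (hβ : MovableClass y β)
    (hαβ : ∀ P, IsPrimeDivisor y P → α P = 0 → β P = 0)
    {σ : LinearMap.BilinForm K (Derivation ℂ K K)}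
    (halt : ∀ D, σ D D = 0) (hnd : ∀ D, (∀ D', σ D D' = 0) → D = 0)
    (hσ : ∀ P, IsPrimeDivisor y P → FormAt n 0 P σ) :
    ∃ (E F : ℝ → Submodule K (Derivation ℂ K K)),
      (∀ t, SlopeMin y n α β t (E t) ∧ SlopeMin y n α β t (F t) ∧
        ∀ G, SlopeMin y n α β t G → E t ≤ G ∧ G ≤ F t) ∧
      (∀ s t, s < t → F s ≤ E t) ∧
      (∃ B : ℝ, ∀ t, B < t → F (-t) = ⊥ ∧ E t = ⊤) ∧
      (∀ t, σ.orthogonal (E t) = F (-t) ∧ σ.orthogonal (F t) = E (-t)) ∧
      (∀ t, t ≤ 0 → (∀ D ∈ E t, ∀ D' ∈ E t, ⁅D, D'⁆ ∈ E t) ∧
        ∀ D ∈ F t, ∀ D' ∈ F t, ⁅D, D'⁆ ∈ F t) ∧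
      (∀ (m : ℕ) (M : Place ℂ K → ℚ) (μ : ℝ)
        (T : MultilinearMap K (fun _ : Fin m => Derivation ℂ K K) K), 1 ≤ m →
        HasDeg y α (fun P => M P) 0 → HasDeg y β (fun P => M P) μ →
        (∀ P, IsPrimeDivisor y P → TensorAt n 0 (M P) P T) →
        ∀ (t : Fin m → ℝ) (D : Fin m → Derivation ℂ K K), (∀ s, D s ∈ F (t s)) →
          (∑ s, t s < μ ∨ ∑ s, t s ≤ μ ∧ ∃ s, D s ∈ E (t s)) → T D = 0) ∧
      ((∀ (G : Submodule K (Derivation ℂ K K)) (d : ℝ), G ≠ ⊥ → G ≠ ⊤ →
        SubDeg y n (fun _ => 0) β G d → d < 0) → E 0 = ⊥ →
        ∀ G : Submodule K (Derivation ℂ K K), SubDeg y n (fun _ => 0) α G 0 → G = ⊥ ∨ G = ⊤) :=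
  slope_filtration hy hn hn1 hα hc hss hβ hαβ halt hnd hσ

end Pool.Agent.Results.MP_be00df_ag.SlopeFiltration
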